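import Pool.Agent.Lib.MP_c5d73d_lc.F.Iter

/-!
# Module BOOK: bookkeeping
-/

universe u v w

open Cardinal Filter

open scoped symmDiff

namespace Pool.Agent.Lib.MP_c5d73d_lc.F.H81

open Pool.Agent.Lib.MP_100a6c_lc

section

variable {I : Type u} [LinearOrder I] [WellFoundedLT I]

omit [WellFoundedLT I] in
theorem mk_Iic_lt (hI : ℵ₀ < #I) (hs : ∀ i : I, #(Set.Iio i) < #I) (i : I) :
    #(Set.Iic i) < #I := by
  have h1 : Set.Iic i = Set.Iio i ∪ {i} := by
    ext x; simp [le_iff_lt_or_eq]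
  rw [h1]
  refine (mk_union_le _ _).trans_lt (add_lt_of_lt hI.le (hs i) ?_)
  rw [mk_singleton]
  exact one_lt_aleph0.trans hI

omit [WellFoundedLT I] in
theorem bounded_of_lt (hI : ℵ₀ < #I) (hr : (#I).IsRegular) (hs : ∀ i : I, #(Set.Iio i) < #I)
    (S : Set I) (hS : #S < #I) : ∃ i, S ⊆ Set.Iio i := by
  by_contra hcon
  push Not at hcon
  have h1 : ∀ i, ∃ s ∈ S, i ≤ s := by
    intro i
    by_contra h
    push Not at h
    exact hcon i fun s hs => h s hs
  have h2 : (⋃ s : S, Set.Iic s.1) = (Set.univ : Set I) := by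
    refine Set.eq_univ_of_forall fun i => ?_
    obtain ⟨s, hs, his⟩ := h1 i
    exact Set.mem_iUnion.2 ⟨⟨s, hs⟩, his⟩
  have h3 := (card_iUnion_lt_iff_forall_of_isRegular hr hS (t := fun s : S => Set.Iic s.1)).2
    fun s => mk_Iic_lt hI hs s.1
  rw [h2, mk_univ] at h3
  exact lt_irrefl _ h3

theorem mk_small_subsets (hI : ℵ₀ < #I) (hr : (#I).IsRegular) (hp : ∀ c < #I, 2 ^ c < #I)
    (hs : ∀ i : I, #(Set.Iio i) < #I) : #{S : Set I // #S < #I} ≤ #I := by
  classical
  choose b hb using fun S : {S : Set I // #S < #I} => bounded_of_lt hI hr hs S.1 S.2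
  have h1 : #{S : Set I // #S < #I} ≤ #(Σ i : I, Set (Set.Iio i)) := by
    refine mk_le_of_injective (f := fun S => ⟨b S, {x | x.1 ∈ S.1}⟩) ?_
    intro S T hST
    have h2 : b S = b T := congrArg Sigma.fst hST
    have h3 : ∀ (i j : I) (_ : i = j) (A : Set (Set.Iio i)) (B : Set (Set.Iio j)),
        HEq A B → ∀ x (hx : x < i) (hx' : x < j), (⟨x, hx⟩ : Set.Iio i) ∈ A ↔
          (⟨x, hx'⟩ : Set.Iio j) ∈ B := by
      rintro i j rfl A B hAB x hx hx'
      rw [eq_of_heq hAB]
    have h4 := h3 _ _ h2 _ _ (Sigma.mk.inj hST).2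
    refine Subtype.ext (Set.ext fun x => ⟨fun hx => ?_, fun hx => ?_⟩)
    · have hx1 : x < b S := hb S hx
      exact (h4 x hx1 (h2 ▸ hx1)).1 hx
    · have hx1 : x < b T := hb T hx
      exact (h4 x (h2 ▸ hx1) hx1).2 hx
  refine h1.trans ?_
  rw [mk_sigma]
  have h2 : ∀ i : I, #(Set (Set.Iio i)) ≤ #I := by
    intro i
    rw [mk_set]
    exact (hp _ (hs i)).le
  refine (sum_le_sum _ (fun _ => #I) h2).trans ?_
  rw [sum_const, lift_id, mul_eq_self hI.le]

end

section

variable {I : Type u}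

/-- Finitely supported functions. -/
abbrev FS (z : I) : Type u := {p : I → I // {i | p i ≠ z}.Finite}

theorem mk_finset_le' {R : Type u} : #(Finset R) ≤ max ℵ₀ #R := by
  classical
  have h1 : #(Finset R) ≤ #(List R) := by
    refine mk_le_of_surjective (f := fun l : List R => l.toFinset) ?_
    intro s
    exact ⟨s.toList, by simp⟩
  exact h1.trans (mk_list_le_max R)

theorem mk_FS (hI : ℵ₀ < #I) (z : I) : #(FS z) ≤ #I := by
  classical
  have h1 : #(FS z) ≤ #(Finset (I × I)) := by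
    refine mk_le_of_injective (f := fun p => p.2.toFinset.image fun i => (i, p.1 i)) ?_
    intro p q hpq
    have h2 : ∀ (p : FS z) (i j : I), (i, j) ∈ (p.2.toFinset.image fun i => (i, p.1 i)) ↔
        p.1 i ≠ z ∧ p.1 i = j := by
      intro p i j
      simp only [Finset.mem_image, Set.Finite.mem_toFinset, Set.mem_ofPred_eq, Prod.mk.injEq]
      constructor
      · rintro ⟨a, ha, rfl, hb⟩; exact ⟨ha, hb⟩
      · rintro ⟨ha, hb⟩; exact ⟨i, ha, rfl, hb⟩
    refine Subtype.ext (funext fun i => ?_)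
    by_cases hp : p.1 i = z
    · by_cases hq : q.1 i = z
      · rw [hp, hq]
      · have h3 := (h2 q i (q.1 i)).2 ⟨hq, rfl⟩
        rw [← show _ = (q.2.toFinset.image fun i => (i, q.1 i)) from hpq] at h3
        exact ((h2 p i _).1 h3).2
    · have h3 := (h2 p i (p.1 i)).2 ⟨hp, rfl⟩
      rw [show (p.2.toFinset.image fun i => (i, p.1 i)) = _ from hpq] at h3
      exact ((h2 q i _).1 h3).2.symm
  refine h1.trans (mk_finset_le'.trans (max_le hI.le ?_))
  rw [mk_prod, lift_id, mul_eq_self hI.le]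

/-- The code of a name, as a subset of `I ⊕ (I × I × FS z)`. -/
def code (z : I) (ν : NameI I) : Set (I ⊕ (I × I × FS z)) :=
  {x | Sum.elim (fun u => u ∈ ν.C) (fun y => y.2.2.1 ∈ ν.N y.1 y.2.1) x}

theorem code_inj {κ : Cardinal.{u}} {z : I} {ν ν' : NameI I} (h : Good κ z ν)
    (h' : Good κ z ν') (he : code z ν = code z ν') : ν = ν' := by
  have h1 : ν.C = ν'.C := by
    ext x
    exact Set.ext_iff.1 he (Sum.inl x)
  have h2 : ν.N = ν'.N := by
    funext x y
    ext p
    constructor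
    · intro hp
      exact (Set.ext_iff.1 he (Sum.inr (x, y, ⟨p, h.fin x y p hp⟩))).1 hp
    · intro hp
      exact (Set.ext_iff.1 he (Sum.inr (x, y, ⟨p, h'.fin x y p hp⟩))).2 hp
  cases ν; cases ν'
  simp only at h1 h2
  subst h1 h2
  rfl

theorem mk_code (hI : ℵ₀ < #I) (hr : (#I).IsRegular) {z : I} {ν : NameI I}
    (h : Good (#I) z ν) : #(code z ν) < #I := by
  have h1 : code z ν ⊆ (Sum.inl '' ν.C) ∪
      ⋃ x : ν.C × ν.C, (fun p : FS z => Sum.inr (x.1.1, x.2.1, p)) ''
        {p | p.1 ∈ ν.N x.1.1 x.2.1} := by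
    rintro (x | ⟨x, y, p⟩) hx
    · left; exact ⟨x, hx, rfl⟩
    · right
      have hx' : p.1 ∈ ν.N x y := hx
      have hx1 : x ∈ ν.C := by
        by_contra hc
        rw [h.out x y (Or.inl hc)] at hx'
        exact hx'
      have hy1 : y ∈ ν.C := by
        by_contra hc
        rw [h.out x y (Or.inr hc)] at hx'
        exact hx'
      exact Set.mem_iUnion.2 ⟨(⟨x, hx1⟩, ⟨y, hy1⟩), p, hx', rfl⟩
  refine (mk_le_mk_of_subset h1).trans_lt ((mk_union_le _ _).trans_lt
    (add_lt_of_lt hI.le ?_ ?_))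
  · exact mk_image_le.trans_lt h.card
  · refine (card_iUnion_lt_iff_forall_of_isRegular hr ?_).2 fun x => ?_
    · rw [mk_prod, lift_id]
      exact mul_lt_of_lt hI.le h.card h.card
    · refine mk_image_le.trans_lt (lt_of_le_of_lt ?_ hI)
      rw [le_aleph0_iff_set_countable]
      exact (h.ctble x.1.1 x.2.1).preimage (f := fun p : FS z => p.1) Subtype.val_injective

end

/-- Module BOOK. -/
theorem book : BookStatement.{u} := by
  intro I _ _ z hI hr hp hs
  classical
  have hX : #(I ⊕ (I × I × FS z)) ≤ #I := by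
    simp only [mk_sum, lift_id, mk_prod]
    have h1 : #I * #(FS z) ≤ #I :=
      (mul_le_mul' le_rfl (mk_FS hI z)).trans (mul_eq_self hI.le).le
    have h2 : #I * (#I * #(FS z)) ≤ #I :=
      (mul_le_mul' le_rfl h1).trans (mul_eq_self hI.le).le
    exact (add_le_add le_rfl h2).trans (add_eq_self hI.le).le
  obtain ⟨j⟩ := hX
  have hG : #{ν : NameI I // Good (#I) z ν} ≤ #I := by
    refine le_trans ?_ (mk_small_subsets hI hr hp hs)
    refine mk_le_of_injective (f := fun ν => ⟨j '' code z ν.1,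
      mk_image_le.trans_lt (mk_code hI hr ν.2)⟩) ?_
    intro ν ν' hνν
    exact Subtype.ext (code_inj ν.2 ν'.2 (j.injective.image_injective
      (congrArg Subtype.val hνν)))
  have hG2 : #({ν : NameI I // Good (#I) z ν} × I) ≤ #I := by
    rw [mk_prod, lift_id, lift_id]
    exact (mul_le_mul' hG le_rfl).trans (mul_eq_self hI.le).le
  obtain ⟨f⟩ := hG2
  have : Nonempty ({ν : NameI I // Good (#I) z ν} × I) := by
    refine ⟨⟨⟨{z}, fun _ _ => ∅⟩, ?_⟩, z⟩
    refine ⟨rfl, ?_, fun _ _ => Set.countable_empty, fun _ _ _ hp => hp.elim,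
      fun _ _ _ => rfl⟩
    simp only [mk_singleton]
    exact one_lt_aleph0.trans hI
  refine ⟨fun i => (Function.invFun f i).1.1, fun i => (Function.invFun f i).1.2, ?_⟩
  intro ν hν β
  have h1 : ¬ Set.range (fun x : I => f (⟨ν, hν⟩, x)) ⊆ Set.Iic β := by
    intro hsub
    have h2 := (mk_le_mk_of_subset hsub).trans_lt (mk_Iic_lt hI hs β)
    rw [mk_range_eq _ (by
      intro x y hxy
      have := f.injective hxy
      exact (Prod.ext_iff.1 this).2)] at h2
    exact lt_irrefl _ h2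
  rw [Set.not_subset] at h1
  obtain ⟨_, ⟨x, rfl⟩, hx⟩ := h1
  refine ⟨f (⟨ν, hν⟩, x), not_le.1 hx, ?_⟩
  simp only [Function.leftInverse_invFun f.injective _]

end Pool.Agent.Lib.MP_c5d73d_lc.F.H81
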